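import Pool.Agent.Lib.MP_b5ead8_al_AC.Kill

/-!
# MP_b5ead8_al: stably trivial relators give stably standard tuples
-/

set_option autoImplicit false

namespace Pool.Agent.MPb5ead8

open FreeGroup Function

/-- The extended tuple and its normal form. PROOF. Reindex by the equivalence
`(Fin g ⊕ Fin m) ⊕ (Fin h ⊕ Fin n) ≃ (Fin g ⊕ Fin h) ⊕ (Fin m ⊕ Fin n)`
(`Equiv.sumSumSumComm`; `NE.reindex`). -/
theorem extTup_NE {g h : ℕ} (m n : ℕ) (p : Fin g → FreeGroup (Fin h))
    (q : Fin h → FreeGroup (Fin h)) :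
    NE (extTup m n (tupPQ p q)) (tupPQ
      (Sum.elim (fun a => FreeGroup.map Sum.inl (p a)) (fun _ => 1) :
        Fin g ⊕ Fin m → FreeGroup (Fin h ⊕ Fin n))
      (Sum.elim (fun b => FreeGroup.map Sum.inl (q b)) (fun j => FreeGroup.of (Sum.inr j)))) := by
  refine (NE.reindex (extTup m n (tupPQ p q))
    (Equiv.sumSumSumComm (Fin g) (Fin m) (Fin h) (Fin n))).trans (NE.of_eq ?_)
  funext x
  rcases x with (a | i) | (b | j)
  · simp [extTup, tupPQ]
  · simp [extTup, tupPQ]
  · simp [extTup, tupPQ]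
  · simp [extTup, tupPQ]

/-- Extension preserves Nielsen equivalence. PROOF. `NE.map` for the homomorphism
`MonoidHom.prodMap (map inl) (map inl)`, then `NE.sum_left`. -/
theorem extTup_congr {g h : ℕ} (m n : ℕ)
    {s s' : Fin g ⊕ Fin h → FreeGroup (Fin g) × FreeGroup (Fin h)} (hs : NE s s') :
    NE (extTup m n s) (extTup m n s') := by
  have h1 := NE.map (MonoidHom.prodMap
    (FreeGroup.map (Sum.inl : Fin g → Fin g ⊕ Fin m))
    (FreeGroup.map (Sum.inl : Fin h → Fin h ⊕ Fin n))) hs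
  exact NE.sum_left _ h1

/-- The entries `(of (inr i), 1)` can be multiplied by elements of the subgroup generated by the
other ones. -/
theorem bwd_shear {A M B : Type} (p : A → FreeGroup B) (Q : B → FreeGroup B)
    (y : M → FreeGroup B)
    (hy : ∀ i, ((1 : FreeGroup (A ⊕ M)), y i) ∈ Subgroup.closure (Set.range
      (Sum.elim (fun a : A => ((FreeGroup.of (Sum.inl a) : FreeGroup (A ⊕ M)), p a))
        (fun b : B => ((1 : FreeGroup (A ⊕ M)), Q b))))) :
    NE (tupPQ (Sum.elim p (fun _ => 1) : A ⊕ M → FreeGroup B) Q)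
      (tupPQ (Sum.elim p y : A ⊕ M → FreeGroup B) Q) := by
  have hw : ∀ i, ∃ w : FreeGroup (A ⊕ B), FreeGroup.lift
      (Sum.elim (fun a : A => ((FreeGroup.of (Sum.inl a) : FreeGroup (A ⊕ M)), p a))
        (fun b : B => ((1 : FreeGroup (A ⊕ M)), Q b))) w = (1, y i) := by
    intro i
    have h1 := hy i
    rw [← FreeGroup.range_lift_eq_closure] at h1
    exact h1
  choose w hw using hw
  let e : (A ⊕ M) ⊕ B ≃ (A ⊕ B) ⊕ M := (Equiv.sumAssoc A M B).trans
    ((Equiv.sumCongr (Equiv.refl A) (Equiv.sumComm M B)).trans (Equiv.sumAssoc A B M).symm)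
  let r : A ⊕ B → FreeGroup (A ⊕ M) × FreeGroup B :=
    Sum.elim (fun a : A => ((FreeGroup.of (Sum.inl a) : FreeGroup (A ⊕ M)), p a))
        (fun b : B => ((1 : FreeGroup (A ⊕ M)), Q b))
  let z : M → FreeGroup (A ⊕ M) × FreeGroup B := fun i => (FreeGroup.of (Sum.inr i), 1)
  have h1 : NE (tupPQ (Sum.elim p (fun _ => 1) : A ⊕ M → FreeGroup B) Q) (Sum.elim r z) := by
    refine ((NE.reindex (Sum.elim r z) e).trans (NE.of_eq ?_)).symm
    funext x
    rcases x with (a | i) | b <;> rfl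
  have h2 : NE (tupPQ (Sum.elim p y : A ⊕ M → FreeGroup B) Q)
      (Sum.elim r fun i => z i * FreeGroup.lift r (w i)) := by
    refine ((NE.reindex (Sum.elim r fun i => z i * FreeGroup.lift r (w i)) e).trans
      (NE.of_eq ?_)).symm
    funext x
    rcases x with (a | i) | b
    · rfl
    · show z i * FreeGroup.lift r (w i) = (FreeGroup.of (Sum.inr i), y i)
      rw [hw i]
      simp [z]
    · rfl
  exact h1.trans ((NE.shear r z w).trans h2.symm)

/-- PROOF. Let `k` be given by `hq` and take `n = k`, `m = h + k`. By `extTup_NE` the extended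
tuple is equivalent to `tupPQ P Q` with `P = Sum.elim (map inl ∘ p) 1`,
`Q = Sum.elim (map inl ∘ q) (of ∘ inr)`. Let `f : Fin m ≃ Fin h ⊕ Fin k` (`finSumFinEquiv.symm`)
and `P' = Sum.elim (map inl ∘ p) (of ∘ f)`. Claim: `NE (tupPQ P Q) (tupPQ P' Q)`. For every
`j : Fin h` the element `(1, of j)` is `lift (tupPQ p q) w` for a word `w` (`hgen`,
`FreeGroup.range_lift_eq_closure`); so `(1, of (inl j))` is a word in the entries
`inl (inl a)`, `inr (inl b)` of `tupPQ P Q` (apply the homomorphism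
`MonoidHom.prodMap (map inl) (map inl)`), and `(1, of (inr l))` is the entry `inr (inr l)`. Hence
`(1, of (f i))` is `lift r (w i)` for a word `w i` in the tuple `r` of all entries but the
`inl (inr i)`, and `NE.shear` (after a reindexing which puts the entries `inl (inr i)`,
`i : Fin m`, to the end) multiplies the entry `(of (inr i), 1)` by it.
`P'` generates `F(Fin h ⊕ Fin k)`, as `f` is surjective (`FreeGroup.closure_range_of`), so
`NE.tupPQ_of_AC` with `hq` gives `NE (tupPQ P' Q) (tupPQ P' of)`, and `NE.tupPQ_kill`. -/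
theorem std_of_stablyTrivial {g h : ℕ} (p : Fin g → FreeGroup (Fin h))
    (q : Fin h → FreeGroup (Fin h))
    (hgen : Subgroup.closure (Set.range (tupPQ p q)) = ⊤) (hq : StablyTrivial q) :
    ∃ m n : ℕ, NE (extTup m n (tupPQ p q)) (stdAB (Fin g ⊕ Fin m) (Fin h ⊕ Fin n)) := by
  obtain ⟨k, hk⟩ := hq
  refine ⟨h + k, k, (extTup_NE (h + k) k p q).trans ?_⟩
  let f : Fin (h + k) ≃ Fin h ⊕ Fin k := finSumFinEquiv.symm
  have hcl : ∀ j : Fin h, ((1 : FreeGroup (Fin g ⊕ Fin (h + k))),
      (FreeGroup.of (Sum.inl j) : FreeGroup (Fin h ⊕ Fin k))) ∈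
      Subgroup.closure (Set.range (Sum.elim
        (fun a : Fin g => ((FreeGroup.of (Sum.inl a) : FreeGroup (Fin g ⊕ Fin (h + k))),
          FreeGroup.map (Sum.inl : Fin h → Fin h ⊕ Fin k) (p a)))
        (fun b : Fin h ⊕ Fin k => ((1 : FreeGroup (Fin g ⊕ Fin (h + k))),
          (Sum.elim (fun b => FreeGroup.map Sum.inl (q b)) (fun j => FreeGroup.of (Sum.inr j)) :
            Fin h ⊕ Fin k → FreeGroup (Fin h ⊕ Fin k)) b)))) := by
    intro j
    let φ := MonoidHom.prodMap
      (FreeGroup.map (Sum.inl : Fin g → Fin g ⊕ Fin (h + k)))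
      (FreeGroup.map (Sum.inl : Fin h → Fin h ⊕ Fin k))
    have h1 : ((1 : FreeGroup (Fin g)), FreeGroup.of j) ∈
        Subgroup.closure (Set.range (tupPQ p q)) := by
      rw [hgen]
      exact Subgroup.mem_top _
    have h2 : φ ((1 : FreeGroup (Fin g)), FreeGroup.of j) ∈
        (Subgroup.closure (Set.range (tupPQ p q))).map φ := Subgroup.mem_map_of_mem _ h1
    rw [MonoidHom.map_closure] at h2
    have h3 : φ ((1 : FreeGroup (Fin g)), FreeGroup.of j) =
        ((1 : FreeGroup (Fin g ⊕ Fin (h + k))),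
          (FreeGroup.of (Sum.inl j) : FreeGroup (Fin h ⊕ Fin k))) := by
      simp [φ]
    rw [h3] at h2
    refine Subgroup.closure_mono ?_ h2
    rintro _ ⟨_, ⟨x, rfl⟩, rfl⟩
    rcases x with a | b
    · exact ⟨Sum.inl a, by simp [φ, tupPQ]⟩
    · exact ⟨Sum.inr (Sum.inl b), by simp [φ, tupPQ]⟩
  have h1 := bwd_shear (M := Fin (h + k))
    (fun a : Fin g => FreeGroup.map (Sum.inl : Fin h → Fin h ⊕ Fin k) (p a))
    (Sum.elim (fun b => FreeGroup.map Sum.inl (q b)) (fun j => FreeGroup.of (Sum.inr j)) :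
      Fin h ⊕ Fin k → FreeGroup (Fin h ⊕ Fin k))
    (fun i => FreeGroup.of (f i)) (by
      intro i
      cases hfi : f i with
      | inl j => exact hcl j
      | inr l =>
        apply Subgroup.subset_closure
        exact ⟨Sum.inr (Sum.inr l), rfl⟩)
  refine h1.trans ?_
  have hP : Subgroup.closure (Set.range (Sum.elim
      (fun a : Fin g => FreeGroup.map (Sum.inl : Fin h → Fin h ⊕ Fin k) (p a))
      (fun i => FreeGroup.of (f i)))) = ⊤ := by
    rw [eq_top_iff, ← FreeGroup.closure_range_of]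
    apply Subgroup.closure_mono
    rintro _ ⟨x, rfl⟩
    refine ⟨Sum.inr (f.symm x), ?_⟩
    simp
  exact (NE.tupPQ_of_AC _ hP hk).trans (NE.tupPQ_kill _)

end Pool.Agent.MPb5ead8
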