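import Pool.Agent.Lib.MP_b5ead8_al.FinalAB

/-!
# MP_b5ead8_al: elementary Nielsen moves and Andrews-Curtis moves
-/

set_option autoImplicit false

namespace Pool.Agent.MPb5ead8

open FreeGroup Function

/-- An elementary Nielsen move: one entry is inverted, or multiplied by another entry. -/
inductive ENStep {ι G : Type} [DecidableEq ι] [Group G] (r : ι → G) : (ι → G) → Prop
  | inv (i : ι) : ENStep r (update r i (r i)⁻¹)
  | mul (i j : ι) (hij : i ≠ j) : ENStep r (update r i (r i * r j))

/-- An Andrews-Curtis move: one entry is inverted, or multiplied by another entry, or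
conjugated. -/
inductive ACStep {ι G : Type} [DecidableEq ι] [Group G] (r : ι → G) : (ι → G) → Prop
  | inv (i : ι) : ACStep r (update r i (r i)⁻¹)
  | mul (i j : ι) (hij : i ≠ j) : ACStep r (update r i (r i * r j))
  | conj (i : ι) (w : G) : ACStep r (update r i (w * r i * w⁻¹))

/-- Equivalence by elementary Nielsen moves. -/
def EN {ι G : Type} [DecidableEq ι] [Group G] (r s : ι → G) : Prop :=
  Relation.ReflTransGen ENStep r s

/-- Andrews-Curtis equivalence. -/
def AC {ι G : Type} [DecidableEq ι] [Group G] (r s : ι → G) : Prop :=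
  Relation.ReflTransGen ACStep r s

/-- The tuple `q_1, ..., q_h` of elements of `F_h`, extended by `k` new generators, can be
transformed into the basis of `F_{h+k}` by Andrews-Curtis moves, for some `k`. -/
def StablyTrivial {h : ℕ} (q : Fin h → FreeGroup (Fin h)) : Prop :=
  ∃ k : ℕ, AC (Sum.elim (fun j => FreeGroup.map Sum.inl (q j)) (fun i => FreeGroup.of (Sum.inr i)) :
    Fin h ⊕ Fin k → FreeGroup (Fin h ⊕ Fin k)) FreeGroup.of

/-- The standard tuple of `F(A) × F(B)`. -/
def stdAB (A B : Type) : A ⊕ B → FreeGroup A × FreeGroup B :=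
  Sum.elim (fun a => (FreeGroup.of a, 1)) (fun b => (1, FreeGroup.of b))

/-- The tuple `(a, P a)`, `(1, Q b)`. -/
def tupPQ {A B : Type} (P : A → FreeGroup B) (Q : B → FreeGroup B) :
    A ⊕ B → FreeGroup A × FreeGroup B :=
  Sum.elim (fun a => (FreeGroup.of a, P a)) (fun b => (1, Q b))

/-- The relators attached to a tuple of elements of `F(A) × F(B)`. -/
def rho {A B : Type} (S : A ⊕ B → FreeGroup A × FreeGroup B) : A ⊕ B → FreeGroup (A ⊕ B) :=
  fun k => (FreeGroup.map Sum.inr (S k).2)⁻¹ * FreeGroup.map Sum.inl (S k).1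

/-- The tuple of a homomorphism `π : F_{g+h} → F_g × F_h`, extended by `m` generators of the
first factor and `n` generators of the second factor. -/
def extTup {g h : ℕ} (m n : ℕ) (s : Fin g ⊕ Fin h → FreeGroup (Fin g) × FreeGroup (Fin h)) :
    (Fin g ⊕ Fin h) ⊕ (Fin m ⊕ Fin n) →
      FreeGroup (Fin g ⊕ Fin m) × FreeGroup (Fin h ⊕ Fin n) :=
  Sum.elim (fun x => (FreeGroup.map Sum.inl (s x).1, FreeGroup.map Sum.inl (s x).2))
    (Sum.elim (fun i => (FreeGroup.of (Sum.inr i), 1)) (fun j => (1, FreeGroup.of (Sum.inr j))))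

end Pool.Agent.MPb5ead8
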