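import Pool.Agent.Lib.MP_b5ead8_al.Nielsen

/-!
# MP_b5ead8_al: Nielsen reduction by an abstract relation between tuples
-/

set_option autoImplicit false

namespace Pool.Agent.MPb5ead8

open FreeGroup Function

/-- A reflexive and transitive relation between tuples which contains the multiplications of
signed entries. -/
structure NRel {ι : Type} [DecidableEq ι] (h : ℕ)
    (R : (ι → FreeGroup (Fin h)) → (ι → FreeGroup (Fin h)) → Prop) : Prop where
  refl : ∀ t, R t t
  trans : ∀ r s t, R r s → R s t → R r t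
  prod : ∀ (t : ι → FreeGroup (Fin h)) (a b : ι × Bool), a.1 ≠ b.1 →
    R t (update t b.1 (V t a * V t b))

/-- minimal tuples for the relation `R` -/
private def enrel_min {ι : Type} [Fintype ι] {h : ℕ}
    (R : (ι → FreeGroup (Fin h)) → (ι → FreeGroup (Fin h)) → Prop)
    (t : ι → FreeGroup (Fin h)) : Prop :=
  ∀ s : ι → FreeGroup (Fin h), R t s → ∑ i, (t i).norm < ∑ i, (s i).norm ∨
    (∑ i, (t i).norm = ∑ i, (s i).norm ∧ ∑ i, sec h (t i) ≤ ∑ i, sec h (s i))

private theorem enrel_exists {ι : Type} [Fintype ι] [DecidableEq ι] {h : ℕ}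
    {R : (ι → FreeGroup (Fin h)) → (ι → FreeGroup (Fin h)) → Prop} (hR : NRel h R)
    (t : ι → FreeGroup (Fin h)) : ∃ s : ι → FreeGroup (Fin h), R t s ∧ enrel_min R s := by
  classical
  have h1 : ∃ n, ∃ s : ι → FreeGroup (Fin h), R t s ∧ ∑ i, (s i).norm = n :=
    ⟨_, t, hR.refl t, rfl⟩
  have h2 : ∃ m, ∃ s : ι → FreeGroup (Fin h), R t s ∧ ∑ i, (s i).norm = Nat.find h1 ∧
      ∑ i, sec h (s i) = m := by
    obtain ⟨s, h3, h4⟩ := Nat.find_spec h1
    exact ⟨_, s, h3, h4, rfl⟩
  obtain ⟨s, h3, h4, h5⟩ := Nat.find_spec h2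
  refine ⟨s, h3, fun s' hs' => ?_⟩
  have h6 : Nat.find h1 ≤ ∑ i, (s' i).norm := Nat.find_min' h1 ⟨s', hR.trans _ _ _ h3 hs', rfl⟩
  rcases h6.lt_or_eq with h7 | h7
  · left
    rw [h4]
    exact h7
  · right
    refine ⟨h4.trans h7, ?_⟩
    rw [h5]
    exact Nat.find_min' h2 ⟨s', hR.trans _ _ _ h3 hs', h7.symm, rfl⟩

private theorem enrel_sum {ι : Type} [Fintype ι] [DecidableEq ι] {G : Type} (f : G → ℕ)
    (t : ι → G) (i : ι) (x : G) :
    ∑ j, f (Function.update t i x j) + f (t i) = ∑ j, f (t j) + f x := by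
  rw [← Finset.add_sum_erase _ (fun j => f (Function.update t i x j)) (Finset.mem_univ i),
    ← Finset.add_sum_erase _ (fun j => f (t j)) (Finset.mem_univ i)]
  have h1 : ∑ j ∈ Finset.univ.erase i, f (Function.update t i x j) =
      ∑ j ∈ Finset.univ.erase i, f (t j) := by
    refine Finset.sum_congr rfl fun j hj => ?_
    rw [Function.update_of_ne (Finset.ne_of_mem_erase hj)]
  rw [h1, Function.update_self]
  omega

private theorem enrel_update {ι : Type} [Fintype ι] [DecidableEq ι] {h : ℕ}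
    {R : (ι → FreeGroup (Fin h)) → (ι → FreeGroup (Fin h)) → Prop}
    {t : ι → FreeGroup (Fin h)} (ht : enrel_min R t) (i : ι) (x : FreeGroup (Fin h))
    (hx : R t (Function.update t i x)) :
    (t i).norm < x.norm ∨ ((t i).norm = x.norm ∧ sec h (t i) ≤ sec h x) := by
  have h1 := enrel_sum (fun y : FreeGroup (Fin h) => y.norm) t i x
  have h2 := enrel_sum (fun y : FreeGroup (Fin h) => sec h y) t i x
  rcases ht _ hx with h3 | ⟨h3, h4⟩
  · left
    omega
  · right
    exact ⟨by omega, by omega⟩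

private theorem enrel_n1 {ι : Type} [Fintype ι] [DecidableEq ι] {h : ℕ}
    {R : (ι → FreeGroup (Fin h)) → (ι → FreeGroup (Fin h)) → Prop} (hR : NRel h R)
    {t : ι → FreeGroup (Fin h)} (ht : enrel_min R t) {a b : ι × Bool} (hab : b ≠ bar a) :
    2 * cp (V t a)⁻¹ (V t b) ≤ (V t a).norm ∧ 2 * cp (V t a)⁻¹ (V t b) ≤ (V t b).norm := by
  have hnV : ∀ c : ι × Bool, (V t c).norm = (t c.1).norm := by
    intro c
    unfold V
    split_ifs
    · rfl
    · exact norm_inv_eq
  have key : ∀ a b : ι × Bool, a.1 ≠ b.1 → 2 * cp (V t a)⁻¹ (V t b) ≤ (V t a).norm := by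
    intro a b hab
    have h1 : (t b.1).norm ≤ (V t a * V t b).norm := by
      rcases enrel_update ht b.1 _ (hR.prod t a b hab) with h1 | h1
      · exact h1.le
      · exact h1.1.le
    have h2 := norm_mul_cp (V t a) (V t b)
    have h3 := hnV b
    omega
  by_cases he : a.1 = b.1
  · have hba : b = a := by
      rcases a with ⟨i, x⟩
      rcases b with ⟨j, y⟩
      simp only at he
      subst he
      cases x <;> cases y <;> simp [bar] at hab ⊢
    subst hba
    by_cases h1 : V t b = 1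
    · have h2 := cp_le_left (V t b)⁻¹ (V t b)
      rw [norm_inv_eq, h1, FreeGroup.norm_one] at h2
      rw [h1]
      omega
    · have := two_cp_lt h1
      omega
  · refine ⟨key a b he, ?_⟩
    have h2 := key (bar b) (bar a) (fun hh => he hh.symm)
    rw [V_bar, V_bar, inv_inv, cp_comm, norm_inv_eq] at h2
    exact h2

private theorem enrel_n2_aux {ι : Type} [Fintype ι] [DecidableEq ι] {h m : ℕ}
    {R : (ι → FreeGroup (Fin h)) → (ι → FreeGroup (Fin h)) → Prop} (hR : NRel h R)
    {t : ι → FreeGroup (Fin h)} (ht : enrel_min R t)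
    {b c : ι × Bool} (hbc : c ≠ bar b) (hb : (V t b).norm = 2 * m)
    (hm : cp (V t b)⁻¹ (V t c) = m) : hc h m (V t b)⁻¹ ≤ hc h m (V t b) := by
  by_contra hlt
  push Not at hlt
  have hne : V t b ≠ 1 := by
    intro h1
    rw [h1, inv_one] at hlt
    exact lt_irrefl _ hlt
  have hbc1 : b.1 ≠ c.1 := by
    intro he
    have hcb : c = b := by
      rcases b with ⟨i, x⟩
      rcases c with ⟨j, y⟩
      simp only at he
      subst he
      cases x <;> cases y <;> simp [bar] at hbc ⊢
    rw [hcb] at hm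
    have := two_cp_lt hne
    omega
  have h1 := (enrel_n1 hR ht hbc).2
  rw [hm] at h1
  obtain ⟨h2, h3⟩ := sec_drop (V t b) (V t c) hb hm h1 hlt
  have hnc : (V t c).norm = (t c.1).norm := by
    unfold V
    split_ifs
    · rfl
    · exact norm_inv_eq
  have hsc : sec h (V t c) = sec h (t c.1) := by
    unfold V
    split_ifs
    · rfl
    · exact sec_inv _
  rcases enrel_update ht c.1 _ (hR.prod t b c hbc1) with h4 | h4
  · omega
  · omega

private theorem enrel_n2 {ι : Type} [Fintype ι] [DecidableEq ι] {h : ℕ}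
    {R : (ι → FreeGroup (Fin h)) → (ι → FreeGroup (Fin h)) → Prop} (hR : NRel h R)
    {t : ι → FreeGroup (Fin h)} (ht : enrel_min R t)
    {a b c : ι × Bool} (hb : V t b ≠ 1) (hab : b ≠ bar a) (hbc : c ≠ bar b) :
    cp (V t a)⁻¹ (V t b) + cp (V t b)⁻¹ (V t c) < (V t b).norm := by
  by_contra hlt
  push Not at hlt
  have h1 := (enrel_n1 hR ht hab).2
  have h2 := (enrel_n1 hR ht hbc).1
  obtain ⟨m, hm⟩ : ∃ m, m = cp (V t b)⁻¹ (V t c) := ⟨_, rfl⟩
  have hbn : (V t b).norm = 2 * m := by omega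
  have hma : cp (V t a)⁻¹ (V t b) = m := by omega
  have h3 := enrel_n2_aux hR ht hbc hbn hm.symm
  have h4 : hc h m (V t b) ≤ hc h m (V t b)⁻¹ := by
    have h5 := enrel_n2_aux (m := m) (b := bar b) (c := bar a) hR ht
      (by
        rw [bar_bar]
        intro he
        exact hab he.symm)
      (by rw [V_bar, norm_inv_eq, hbn])
      (by rw [V_bar, V_bar, inv_inv, cp_comm, hma])
    rwa [V_bar, inv_inv] at h5
  have h5 : hc h m (V t b)⁻¹ = hc h m (V t b) := le_antisymm h3 h4
  have h6 : ((V t b)⁻¹).toWord.take m = (V t b).toWord.take m := by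
    apply code_inj (B := 2 * h + 1) (dig_lt h) (dig_inj h)
    · rw [List.length_take, List.length_take]
      have e1 : ((V t b)⁻¹).toWord.length = 2 * m := by
        rw [← hbn, ← norm_inv_eq]; rfl
      have e2 : (V t b).toWord.length = 2 * m := by
        rw [← hbn]; rfl
      rw [e1, e2]
    · exact h5
  have h7 : m ≤ cp (V t b)⁻¹ (V t b) := by
    unfold cp
    rw [le_lcp_iff]
    refine ⟨?_, ?_, h6⟩
    · have e1 : ((V t b)⁻¹).toWord.length = 2 * m := by
        rw [← hbn, ← norm_inv_eq]; rfl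
      omega
    · have e2 : (V t b).toWord.length = 2 * m := by
        rw [← hbn]; rfl
      omega
  have h8 := two_cp_lt hb
  omega

private theorem enrel_lift_ge {ι : Type} [Fintype ι] [DecidableEq ι] {h : ℕ}
    {R : (ι → FreeGroup (Fin h)) → (ι → FreeGroup (Fin h)) → Prop} (hR : NRel h R)
    {t : ι → FreeGroup (Fin h)} (ht : enrel_min R t) (w : FreeGroup {i : ι // t i ≠ 1}) :
    w.norm ≤ (FreeGroup.lift (fun s : {i : ι // t i ≠ 1} => t s.1) w).norm := by
  have hlen : (w.toWord.map (fun x => ((x.1.1, x.2) : ι × Bool))).length = w.norm := by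
    rw [List.length_map]; rfl
  have hprod : FreeGroup.lift (fun s : {i : ι // t i ≠ 1} => t s.1) w =
      ((w.toWord.map (fun x => ((x.1.1, x.2) : ι × Bool))).map (V t)).prod := by
    conv_lhs => rw [← mk_toWord (x := w), lift_mk]
    rw [List.map_map]
    congr 1
    apply List.map_congr_left
    rintro ⟨s, b⟩ _
    cases b <;> simp [V]
  rw [hprod, ← hlen]
  apply prod_norm (V t) (fun a b hab => (enrel_n1 hR ht hab).1)
    (fun a b hab => (enrel_n1 hR ht hab).2) (fun a b c hb hab hbc => enrel_n2 hR ht hb hab hbc)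
  · rw [List.isChain_map]
    have hr : IsReduced w.toWord := isReduced_toWord
    refine List.IsChain.imp ?_ hr
    rintro ⟨x, c⟩ ⟨y, d⟩ hxy heq
    simp only [bar, Prod.mk.injEq] at heq
    have h1 : x = y := Subtype.ext heq.1.symm
    have h2 : c = d := hxy h1
    rw [h2] at heq
    cases d <;> simp at heq
  · intro b hb
    rw [List.mem_map] at hb
    obtain ⟨x, _, rfl⟩ := hb
    have hx := x.1.2
    unfold V
    simp only
    split_ifs
    · exact hx
    · exact inv_ne_one.mpr hx

/-- Nielsen's theorem for the relation `R`.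
PROOF. This is `nielsen` (file `Nielsen.lean` in `Pool/Agent/Lib/MP_b5ead8_al`) with `R` in the
place of `NE`. Define `RMin R t := ∀ s, R t s → ∑ norm t < ∑ norm s ∨ (∑ norm t = ∑ norm s ∧
∑ sec h (t i) ≤ ∑ sec h (s i))` and copy, with `R` for `NE` and `hR.prod` for `NE.prod_entry`,
the proofs of `exists_minimal`, `Minimal.update` (`NMin.lean`), `n1` (`N1.lean`), `n2_aux`, `n2`
(`N2.lean`), `norm_lift_ge` (`NInj.lean`); `sec_drop`, `prod_norm`, `letters` are used as they
are. For the generation of the minimal tuple use `hcl`. -/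
theorem nielsen_rel {ι : Type} [Fintype ι] [DecidableEq ι] {h : ℕ}
    {R : (ι → FreeGroup (Fin h)) → (ι → FreeGroup (Fin h)) → Prop} (hR : NRel h R)
    (hcl : ∀ s t, R s t → Subgroup.closure (Set.range s) = ⊤ →
      Subgroup.closure (Set.range t) = ⊤)
    (t : ι → FreeGroup (Fin h)) (ht : Subgroup.closure (Set.range t) = ⊤) :
    ∃ (s : ι → FreeGroup (Fin h)) (e : Fin h ≃ {i : ι // s i ≠ 1}) (ε : Fin h → Bool),
      R t s ∧ ∀ k, s (e k) = if ε k then FreeGroup.of k else (FreeGroup.of k)⁻¹ := by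
  obtain ⟨s, hts, hs⟩ := enrel_exists hR t
  have hgen := hcl t s hts ht
  have hgen' : Subgroup.closure (Set.range (fun i : {i : ι // s i ≠ 1} => s i.1)) = ⊤ := by
    rw [eq_top_iff, ← hgen, Subgroup.closure_le]
    rintro _ ⟨i, rfl⟩
    by_cases hi : s i = 1
    · rw [hi]
      exact one_mem _
    · exact Subgroup.subset_closure ⟨⟨i, hi⟩, rfl⟩
  obtain ⟨e, ε, he⟩ := letters (fun i : {i : ι // s i ≠ 1} => s i.1) (enrel_lift_ge hR hs) hgen'
  exact ⟨s, e, ε, hts, he⟩

end Pool.Agent.MPb5ead8
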