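import Pool.Agent.Lib.MP_b5ead8_al_AC.ENBasic
import Pool.Agent.Lib.MP_b5ead8_al_AC.ENRel

/-!
# MP_b5ead8_al: automorphisms of free groups and elementary Nielsen moves
-/

set_option autoImplicit false

namespace Pool.Agent.MPb5ead8

open FreeGroup Function

/-- PROOF: one step suffices; `NE.inv` and `NE.mul_right` (file `NE.lean`). -/
theorem EN.toNE {ι G : Type} [DecidableEq ι] [Group G] {r s : ι → G} (h : EN r s) : NE r s := by
  induction h with
  | refl => exact NE.refl r
  | tail _ h2 ih =>
    refine ih.trans ?_
    cases h2 with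
    | inv i => exact NE.inv _ i
    | mul i j hij => exact NE.mul_right _ (Ne.symm hij)

/-- A generating tuple of `F_h` with `h` entries is equivalent to the basis by elementary moves.
PROOF. `nielsen_rel` with `R = EN` (`EN.prod_entry`; generation: `EN.toNE`, `NE.closure_top`)
gives `s`, `e : Fin h ≃ {i // s i ≠ 1}`, `ε`. By cardinality every `s i ≠ 1`: the map
`k ↦ (e k).1 : Fin h → Fin h` is injective, hence bijective; let `e'` be this permutation. So
`s (e' k) = (of k)^{±1}`, `EN s (s ∘ e')` by `EN.perm` and `EN (s ∘ e') of` by `EN.signs` (for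
`of`, and `EN.symm`). -/
theorem EN.of_generates {h : ℕ} (t : Fin h → FreeGroup (Fin h))
    (ht : Subgroup.closure (Set.range t) = ⊤) : EN t FreeGroup.of := by
  obtain ⟨s, e, ε, hts, hs⟩ := nielsen_rel (R := EN)
    ⟨fun t => EN.refl t, fun _ _ _ h1 h2 => h1.trans h2, fun t a b hab => EN.prod_entry t hab⟩
    (fun _ _ h1 h2 => h1.toNE.closure_top h2) t ht
  have hinj : Function.Injective (fun k => (e k).1) := fun k l hkl => e.injective (Subtype.ext hkl)
  have h1 := EN.perm s (Equiv.ofBijective _ (Finite.injective_iff_bijective.1 hinj))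
  have h2 : s ∘ (Equiv.ofBijective _ (Finite.injective_iff_bijective.1 hinj)) =
      fun k => if ε k then FreeGroup.of k else (FreeGroup.of k)⁻¹ := funext fun k => hs k
  rw [h2] at h1
  exact (hts.trans h1).trans (EN.signs FreeGroup.of ε).symm

private theorem enaut_reindex {ι κ G : Type} [DecidableEq ι] [DecidableEq κ] [Group G] (e : ι ≃ κ)
    {r s : ι → G} (h : EN r s) : EN (r ∘ e.symm) (s ∘ e.symm) := by
  induction h with
  | refl => exact EN.refl _
  | @tail b c _ h2 ih =>
    refine ih.trans ?_
    cases h2 with
    | inv i =>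
      rw [Function.update_comp_equiv]
      have h3 := ENStep.inv (r := b ∘ e.symm) (e i)
      simp only [comp_apply, Equiv.symm_apply_apply] at h3
      exact Relation.ReflTransGen.single h3
    | mul i j hij =>
      rw [Function.update_comp_equiv]
      have h3 := ENStep.mul (r := b ∘ e.symm) (e i) (e j) (fun h => hij (e.injective h))
      simp only [comp_apply, Equiv.symm_apply_apply] at h3
      exact Relation.ReflTransGen.single h3

/-- Nielsen: the automorphism group of a free group of finite rank is generated by the elementary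
Nielsen automorphisms.
PROOF. Let `N` be the number of elements of `ι`, `e : ι ≃ Fin N`, `α` the isomorphism of `h`. The
tuple `k ↦ map e (α (of (e.symm k)))`, `Fin N → FreeGroup (Fin N)`, generates (the homomorphism
`lift` of it is the bijection `map e ∘ α ∘ map e.symm`; `FreeGroup.range_lift_eq_closure`), so
`EN.of_generates` applies. With `EN.map` for `map e.symm` we get, after composition of the index
with `e` (as in `AC.reindex`; prove the same for `EN`), `EN (fun k => α (of k)) of` in
`FreeGroup ι`. Apply `EN.map (lift t)`: `EN s t`. Use `EN.symm`. -/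
theorem EN.of_NE {ι G : Type} [Fintype ι] [DecidableEq ι] [Group G] {t s : ι → G}
    (h : NE t s) : EN t s := by
  obtain ⟨α, hα⟩ := h
  obtain ⟨e⟩ : Nonempty (ι ≃ Fin (Fintype.card ι)) := ⟨Fintype.equivFin ι⟩
  have hsur : Function.Surjective (FreeGroup.lift
      (fun k => FreeGroup.map e (α (FreeGroup.of (e.symm k))))) := by
    have h1 : (FreeGroup.lift (fun k => FreeGroup.map e (α (FreeGroup.of (e.symm k))))) =
        ((FreeGroup.map e).comp (α.toMonoidHom.comp (FreeGroup.map e.symm))) := by
      ext k
      simp
    rw [h1]
    have h2 : Function.Surjective (FreeGroup.map e) := (FreeGroup.freeGroupCongr e).surjective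
    have h3 : Function.Surjective (FreeGroup.map e.symm) :=
      (FreeGroup.freeGroupCongr e.symm).surjective
    exact h2.comp (α.surjective.comp h3)
  have hcl := FreeGroup.lift_surjective_iff_closure_range_eq_top.1 hsur
  have h1 := enaut_reindex e.symm ((EN.of_generates _ hcl).map (FreeGroup.map e.symm))
  have h2 : (FreeGroup.map e.symm ∘ fun k => FreeGroup.map e (α (FreeGroup.of (e.symm k)))) ∘
      e.symm.symm = fun i => α (FreeGroup.of i) := by
    funext i
    simp [FreeGroup.map.comp]
  have h3 : (FreeGroup.map e.symm ∘ FreeGroup.of) ∘ e.symm.symm = FreeGroup.of := by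
    funext i
    simp
  rw [h2, h3] at h1
  have h4 := h1.map (FreeGroup.lift t)
  have h5 : (FreeGroup.lift t ∘ fun i => α (FreeGroup.of i)) = s := funext hα
  have h6 : (FreeGroup.lift t ∘ FreeGroup.of) = t := by
    funext i
    simp
  rw [h5, h6] at h4
  exact h4.symm

end Pool.Agent.MPb5ead8
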