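import Pool.Agent.Lib.MP_b5ead8_al_AC.Defs

/-!
# MP_b5ead8_al: rules for elementary Nielsen moves and Andrews-Curtis moves
-/

set_option autoImplicit false

namespace Pool.Agent.MPb5ead8

open FreeGroup Function

section

variable {ι G H : Type} [DecidableEq ι] [Group G] [Group H]

theorem EN.refl (r : ι → G) : EN r r := Relation.ReflTransGen.refl

theorem EN.trans {r s t : ι → G} (h : EN r s) (h' : EN s t) : EN r t :=
  Relation.ReflTransGen.trans h h'

theorem AC.refl (r : ι → G) : AC r r := Relation.ReflTransGen.refl

theorem AC.trans {r s t : ι → G} (h : AC r s) (h' : AC s t) : AC r t :=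
  Relation.ReflTransGen.trans h h'

/-- PROOF: `Relation.ReflTransGen.mono`. -/
theorem EN.toAC {r s : ι → G} (h : EN r s) : AC r s := by
  refine Relation.ReflTransGen.mono ?_ _ _ h
  intro a b h
  cases h with
  | inv i => exact ACStep.inv i
  | mul i j hij => exact ACStep.mul i j hij

private theorem enbasic_inv (r : ι → G) (i : ι) {s : ι → G} (h : s = update r i (r i)⁻¹) :
    EN r s := by
  rw [h]
  exact Relation.ReflTransGen.single (ENStep.inv i)

private theorem enbasic_mul (r : ι → G) {i j : ι} (hij : i ≠ j) {s : ι → G}
    (h : s = update r i (r i * r j)) : EN r s := by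
  rw [h]
  exact Relation.ReflTransGen.single (ENStep.mul i j hij)

/-- Multiplication by the inverse of another entry: invert the entry `j`, multiply, invert `j`
again (`update_comm`, `update_idem`, `update_eq_self`). -/
theorem EN.mul_inv (r : ι → G) {i j : ι} (hij : i ≠ j) :
    EN r (update r i (r i * (r j)⁻¹)) := by
  have h1 : EN r (update r j (r j)⁻¹) := enbasic_inv r j rfl
  have h2 : EN (update r j (r j)⁻¹) (update (update r i (r i * (r j)⁻¹)) j (r j)⁻¹) := by
    refine enbasic_mul _ hij ?_
    rw [update_comm hij, update_of_ne hij, update_self]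
  have h3 : EN (update (update r i (r i * (r j)⁻¹)) j (r j)⁻¹)
      (update r i (r i * (r j)⁻¹)) := by
    refine enbasic_inv _ j ?_
    rw [update_self, inv_inv, update_idem]
    refine (update_eq_self_iff.2 ?_).symm
    rw [update_of_ne hij.symm]
  exact (h1.trans h2).trans h3

/-- Multiplication by a signed entry. -/
private theorem enbasic_mulV (r : ι → G) (i : ι) (a : ι × Bool) (hi : i ≠ a.1) :
    EN r (update r i (r i * V r a)) := by
  rcases a with ⟨j, b⟩
  cases b
  · exact EN.mul_inv r hi
  · exact enbasic_mul r hi rfl

/-- Multiplication of a signed entry from the left by another signed entry (`V`, file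
`Pool.Agent.Lib.MP_b5ead8_al.Defs`). PROOF: `x ↦ x⁻¹ ↦ x⁻¹ * y⁻¹ ↦ y * x`. -/
theorem EN.prod_entry (r : ι → G) {a b : ι × Bool} (hab : a.1 ≠ b.1) :
    EN r (update r b.1 (V r a * V r b)) := by
  have h1 : EN r (update r b.1 (V r b)⁻¹) := by
    rcases b with ⟨i, b⟩
    cases b
    · have h : update r i (V r (i, false))⁻¹ = r := by
        refine update_eq_self_iff.2 ?_
        simp [V]
      change EN r (update r i (V r (i, false))⁻¹)
      rw [h]
      exact EN.refl r
    · exact enbasic_inv r i rfl
  have hV : ∀ x : G, V (update r b.1 x) (bar a) = (V r a)⁻¹ := by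
    intro x
    rw [V_bar]
    have h : update r b.1 x a.1 = r a.1 := update_of_ne hab _ _
    unfold V
    rw [h]
  have h2 := enbasic_mulV (update r b.1 (V r b)⁻¹) b.1 (bar a) (Ne.symm hab)
  rw [hV, update_self, update_idem] at h2
  have h3 : EN (update r b.1 ((V r b)⁻¹ * (V r a)⁻¹)) (update r b.1 (V r a * V r b)) := by
    refine enbasic_inv _ b.1 ?_
    rw [update_self, update_idem, mul_inv_rev, inv_inv, inv_inv]
  exact (h1.trans h2).trans h3

/-- PROOF: it suffices to reverse one step (`Relation.ReflTransGen` induction). An inversion is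
reversed by an inversion, a multiplication by `EN.mul_inv`. -/
theorem EN.symm {r s : ι → G} (h : EN r s) : EN s r := by
  induction h with
  | refl => exact EN.refl r
  | @tail b c _ hs ih =>
    refine EN.trans ?_ ih
    cases hs with
    | inv i =>
      refine enbasic_inv _ i ?_
      rw [update_self, inv_inv, update_idem, update_eq_self]
    | mul i j hij =>
      have h1 := EN.mul_inv (update b i (b i * b j)) hij
      rw [update_self, update_of_ne hij.symm, update_idem, mul_inv_cancel_right,
        update_eq_self] at h1
      exact h1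

/-- PROOF: as `EN.symm`; a conjugation is reversed by the conjugation with `w⁻¹`. -/
theorem AC.symm {r s : ι → G} (h : AC r s) : AC s r := by
  induction h with
  | refl => exact AC.refl r
  | @tail b c _ hs ih =>
    refine AC.trans ?_ ih
    cases hs with
    | inv i => exact (enbasic_inv b i rfl).symm.toAC
    | mul i j hij => exact (enbasic_mul b hij rfl).symm.toAC
    | conj i w =>
      have h1 : AC (update b i (w * b i * w⁻¹)) _ :=
        Relation.ReflTransGen.single (ACStep.conj i w⁻¹)
      have h2 : w⁻¹ * (w * b i * w⁻¹) * w⁻¹⁻¹ = b i := by group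
      rw [update_self, update_idem, h2, update_eq_self] at h1
      exact h1

/-- PROOF: induction on the chain; `f ∘ update r i x = update (f ∘ r) i (f x)`
(`Function.comp_update`). -/
theorem EN.map (f : G →* H) {r s : ι → G} (h : EN r s) : EN (f ∘ r) (f ∘ s) := by
  induction h with
  | refl => exact EN.refl _
  | @tail b c _ hs ih =>
    refine EN.trans ih ?_
    cases hs with
    | inv i =>
      refine enbasic_inv _ i ?_
      rw [comp_update, _root_.map_inv]
      rfl
    | mul i j hij =>
      refine enbasic_mul _ hij ?_
      rw [comp_update, _root_.map_mul]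
      rfl

/-- PROOF: as `EN.map`. -/
theorem AC.map (f : G →* H) {r s : ι → G} (h : AC r s) : AC (f ∘ r) (f ∘ s) := by
  induction h with
  | refl => exact AC.refl _
  | @tail b c _ hs ih =>
    refine AC.trans ih ?_
    cases hs with
    | inv i => exact ((enbasic_inv b i rfl).map f).toAC
    | mul i j hij => exact ((enbasic_mul b hij rfl).map f).toAC
    | conj i w =>
      have h1 : AC (f ∘ b) _ := Relation.ReflTransGen.single (ACStep.conj i (f w))
      have h2 : f ∘ update b i (w * b i * w⁻¹) =
          update (f ∘ b) i (f w * (f ∘ b) i * (f w)⁻¹) := by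
        rw [comp_update, _root_.map_mul, _root_.map_mul, _root_.map_inv]
        rfl
      rw [h2]
      exact h1

/-- the transposition of two entries -/
private theorem enbasic_swap (r : ι → G) {i j : ι} (hij : i ≠ j) :
    EN r (r ∘ Equiv.swap i j) := by
  have hi : ∀ X Y : G, update (update r i X) j Y i = X := fun X Y => by
    rw [update_of_ne hij, update_self]
  have hj : ∀ X Y : G, update (update r i X) j Y j = Y := fun X Y => update_self _ _ _
  have hui : ∀ X Y X' : G, update (update (update r i X) j Y) i X' =
      update (update r i X') j Y := fun X Y X' => by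
    rw [update_comm hij.symm, update_idem]
  have huj : ∀ X Y Y' : G, update (update (update r i X) j Y) j Y' =
      update (update r i X) j Y' := fun X Y Y' => update_idem _ _ _
  have e0 : r = update (update r i (r i)) j (r j) := by
    rw [update_eq_self, update_eq_self]
  have e1 : r ∘ Equiv.swap i j = update (update r i (r j)) j (r i) := by
    funext k
    rw [comp_apply]
    by_cases hkj : k = j
    · rw [hkj, update_self, Equiv.swap_apply_right]
    · rw [update_of_ne hkj]
      by_cases hki : k = i
      · rw [hki, update_self, Equiv.swap_apply_left]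
      · rw [update_of_ne hki, Equiv.swap_apply_of_ne_of_ne hki hkj]
  obtain ⟨x, hx⟩ : ∃ x, x = r i := ⟨_, rfl⟩
  obtain ⟨y, hy⟩ : ∃ y, y = r j := ⟨_, rfl⟩
  rw [← hx, ← hy] at e0 e1
  rw [e1]
  have h1 : EN r (update (update r i (x * y)) j y) :=
    enbasic_mul _ hij (by
      rw [← hx, ← hy]
      conv_rhs => rw [e0]
      rw [hui])
  have h2 : EN (update (update r i (x * y)) j y) (update (update r i (x * y)) j y⁻¹) :=
    enbasic_inv _ j (by rw [huj, hj])
  have h3 : EN (update (update r i (x * y)) j y⁻¹)
      (update (update r i (x * y)) j (y⁻¹ * (x * y))) :=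
    enbasic_mul _ hij.symm (by rw [huj, hj, hi])
  have h4 := EN.mul_inv (update (update r i (x * y)) j (y⁻¹ * (x * y))) hij
  have e4 : x * y * (y⁻¹ * (x * y))⁻¹ = y := by group
  rw [hui, hi, hj, e4] at h4
  have h5 := EN.prod_entry (update (update r i y) j (y⁻¹ * (x * y))) (a := (i, true))
    (b := (j, true)) hij
  have e5 : y * (y⁻¹ * (x * y)) = x * y := by group
  have e5' : V (update (update r i y) j (y⁻¹ * (x * y))) (i, true) *
      V (update (update r i y) j (y⁻¹ * (x * y))) (j, true) = x * y := by
    unfold V
    rw [if_pos rfl, if_pos rfl, hi, hj, e5]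
  rw [e5', huj] at h5
  have h6 := EN.mul_inv (update (update r i y) j (x * y)) hij.symm
  rw [huj, hi, hj, mul_inv_cancel_right] at h6
  exact ((((h1.trans h2).trans h3).trans h4).trans h5).trans h6

/-- PROOF: for the transposition: `(x, y) ↦ (x y, y) ↦ (x y, y⁻¹) ↦ (x y, y⁻¹ x y) ↦
(x y (y⁻¹ x y)⁻¹, y⁻¹ x y) = (y, y⁻¹ x y) ↦ (y, x)` by left and right multiplications
(`EN.prod_entry`, `EN.mul_inv`); then `Equiv.Perm.swap_induction_on` (`Finite ι`). -/
theorem EN.perm [Finite ι] (r : ι → G) (e : Equiv.Perm ι) : EN r (r ∘ e) := by
  induction e using Equiv.Perm.swap_induction_on generalizing r with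
  | one => exact EN.refl r
  | swap_mul f x y hxy ih =>
    exact (enbasic_swap r hxy).trans (ih (r ∘ Equiv.swap x y))

/-- PROOF: induction over a finite set of indices to be inverted (`Finset.induction_on` for the
statement with `if i ∈ S then r i else (r i)⁻¹`), or over the tuple. -/
theorem EN.signs [Finite ι] (r : ι → G) (ε : ι → Bool) :
    EN r (fun i => if ε i then r i else (r i)⁻¹) := by
  have h1 : ∀ S : Finset ι, EN r (fun i => if i ∈ S then (r i)⁻¹ else r i) := by
    intro S
    induction S using Finset.induction_on with
    | empty =>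
      simp only [Finset.notMem_empty, if_false]
      exact EN.refl r
    | insert a S ha ih =>
      refine ih.trans (enbasic_inv _ a ?_)
      funext k
      by_cases hk : k = a
      · rw [hk, update_self, if_pos (Finset.mem_insert_self a S), if_neg ha]
      · rw [update_of_ne hk]
        by_cases hkS : k ∈ S
        · rw [if_pos (Finset.mem_insert_of_mem hkS), if_pos hkS]
        · rw [if_neg hkS, if_neg]
          rw [Finset.mem_insert]
          rintro (h | h)
          · exact hk h
          · exact hkS h
  cases nonempty_fintype ι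
  have h2 := h1 (Finset.univ.filter fun i => ε i = false)
  have h3 : (fun i => if i ∈ Finset.univ.filter (fun i => ε i = false) then (r i)⁻¹ else r i) =
      fun i => if ε i then r i else (r i)⁻¹ := by
    funext i
    by_cases hi : ε i = true
    · rw [if_pos hi, if_neg]
      simp [hi]
    · rw [if_neg hi, if_pos]
      simpa using hi
  rw [h3] at h2
  exact h2

end

/-- Change of the index set. PROOF: induction on the chain:
`(update r i x) ∘ e.symm = update (r ∘ e.symm) (e i) x` (`Function.update_comp_equiv`). -/
theorem AC.reindex {ι κ G : Type} [DecidableEq ι] [DecidableEq κ] [Group G] (e : ι ≃ κ)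
    {r s : ι → G} (h : AC r s) : AC (r ∘ e.symm) (s ∘ e.symm) := by
  have hr : ∀ (b : ι → G) (i : ι), (b ∘ e.symm) (e i) = b i := fun b i => by
    rw [comp_apply, Equiv.symm_apply_apply]
  have hu : ∀ (b : ι → G) (i : ι) (x : G),
      update b i x ∘ e.symm = update (b ∘ e.symm) (e i) x := fun b i x => by
    rw [update_comp_equiv, Equiv.symm_symm]
  induction h with
  | refl => exact AC.refl _
  | @tail b c _ hs ih =>
    refine AC.trans ih (Relation.ReflTransGen.single ?_)
    cases hs with
    | inv i =>
      have h1 := ACStep.inv (r := b ∘ e.symm) (e i)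
      rw [hr] at h1
      rw [hu]
      exact h1
    | mul i j hij =>
      have h1 := ACStep.mul (r := b ∘ e.symm) (e i) (e j) (e.injective.ne hij)
      rw [hr, hr] at h1
      rw [hu]
      exact h1
    | conj i w =>
      have h1 := ACStep.conj (r := b ∘ e.symm) (e i) w
      rw [hr] at h1
      rw [hu]
      exact h1

end Pool.Agent.MPb5ead8
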