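import Pool.Agent.Lib.MP_b5ead8_al_AC.Fwd
import Pool.Agent.Lib.MP_b5ead8_al_AC.Bwd

/-!
# MP_b5ead8_al: stably standard surjections and the stable Andrews-Curtis problem
-/

set_option autoImplicit false

namespace Pool.Agent.MPb5ead8

open FreeGroup Function

/-- The standard tuple in the order of `extTup`. -/
private def final_std (g h m n : ℕ) : (Fin g ⊕ Fin h) ⊕ (Fin m ⊕ Fin n) →
    FreeGroup (Fin g ⊕ Fin m) × FreeGroup (Fin h ⊕ Fin n) :=
  Sum.elim (Sum.elim (fun a => (FreeGroup.of (Sum.inl a), 1))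
    (fun b => (1, FreeGroup.of (Sum.inl b))))
    (Sum.elim (fun i => (FreeGroup.of (Sum.inr i), 1)) (fun j => (1, FreeGroup.of (Sum.inr j))))

private theorem final_std_NE (g h m n : ℕ) :
    NE (stdAB (Fin g ⊕ Fin m) (Fin h ⊕ Fin n)) (final_std g h m n) := by
  have h1 : final_std g h m n = stdAB (Fin g ⊕ Fin m) (Fin h ⊕ Fin n) ∘
      Equiv.sumSumSumComm (Fin g) (Fin h) (Fin m) (Fin n) := by
    funext x
    rcases x with (a | b) | (i | j) <;> rfl
  rw [h1]
  exact NE.reindex _ _

private theorem final_NE_iff {ι G : Type} [Group G] (t : ι → G) (w : ι → G) :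
    (∃ α : MulAut (FreeGroup ι), FreeGroup.lift w = (FreeGroup.lift t).comp α.toMonoidHom) ↔
      NE t w := by
  constructor
  · rintro ⟨α, hα⟩
    refine ⟨α, fun k => ?_⟩
    have h1 := DFunLike.congr_fun hα (FreeGroup.of k)
    rw [FreeGroup.lift_apply_of] at h1
    exact h1.symm
  · rintro ⟨α, hα⟩
    refine ⟨α, ?_⟩
    ext k
    rw [FreeGroup.lift_apply_of]
    exact (hα k).symm

/-- PROOF. Put `s x = π (of x)` and `p a = (π (β (of (inl a)))).2`; then
`fun x => π (β (of x))` is `tupPQ p q` (`hp`, `hq1`, `hq2`), it is Nielsen equivalent to `s` (by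
the isomorphism `β`), and it generates (`closure_of_surjective` for `π.comp β`).
The equation of homomorphisms on the left is equivalent to
`NE (extTup m n s) (stdAB _ _)` up to reindexing: with `W := extTup m n s` and the tuple `std'` on
the right side (both on the index set `(Fin g ⊕ Fin h) ⊕ (Fin m ⊕ Fin n)`), `lift W = (lift std').comp α`
says `lift std' (α (of k)) = W k`, i.e. `NE std' W`; and `std'` is a reindexing of `stdAB`
(`Equiv.sumSumSumComm`, `NE.reindex`).
(→) `stablyTrivial_of_std` with `extTup_congr`, `extTup_NE`. (←) `std_of_stablyTrivial`. -/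
theorem final_AC (g h : ℕ) (π : FreeGroup (Fin g ⊕ Fin h) →*
      FreeGroup (Fin g) × FreeGroup (Fin h)) (hπ : Surjective π)
    (β : MulAut (FreeGroup (Fin g ⊕ Fin h))) (q : Fin h → FreeGroup (Fin h))
    (hp : ∀ a : Fin g, (π (β (FreeGroup.of (Sum.inl a)))).1 = FreeGroup.of a)
    (hq : ∀ b : Fin h, π (β (FreeGroup.of (Sum.inr b))) = (1, q b)) :
    (∃ (m n : ℕ) (α : MulAut (FreeGroup ((Fin g ⊕ Fin h) ⊕ (Fin m ⊕ Fin n)))),
      FreeGroup.lift (Sum.elim
        (fun x => ((FreeGroup.map Sum.inl (π (FreeGroup.of x)).1,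
          FreeGroup.map Sum.inl (π (FreeGroup.of x)).2) :
            FreeGroup (Fin g ⊕ Fin m) × FreeGroup (Fin h ⊕ Fin n)))
        (Sum.elim (fun i => (FreeGroup.of (Sum.inr i), 1))
          (fun j => (1, FreeGroup.of (Sum.inr j))))) =
      (FreeGroup.lift (Sum.elim
        (Sum.elim (fun a => ((FreeGroup.of (Sum.inl a), 1) :
            FreeGroup (Fin g ⊕ Fin m) × FreeGroup (Fin h ⊕ Fin n)))
          (fun b => (1, FreeGroup.of (Sum.inl b))))
        (Sum.elim (fun i => (FreeGroup.of (Sum.inr i), 1))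
          (fun j => (1, FreeGroup.of (Sum.inr j)))))).comp α.toMonoidHom) ↔
    StablyTrivial q := by
  have hs : NE (fun x => π (FreeGroup.of x))
      (tupPQ (fun a => (π (β (FreeGroup.of (Sum.inl a)))).2) q) := by
    refine ⟨β, fun k => ?_⟩
    have h1 : FreeGroup.lift (fun x => π (FreeGroup.of x)) = π := by
      ext x <;> simp
    rw [h1]
    rcases k with a | b
    · exact Prod.ext (hp a) rfl
    · exact hq b
  have hgen : Subgroup.closure (Set.range
      (tupPQ (fun a => (π (β (FreeGroup.of (Sum.inl a)))).2) q)) = ⊤ := by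
    refine hs.closure_top ?_
    rw [← FreeGroup.range_lift_eq_closure, MonoidHom.range_eq_top]
    have h1 : FreeGroup.lift (fun x => π (FreeGroup.of x)) = π := by
      ext x <;> simp
    rw [h1]
    exact hπ
  have key : ∀ m n : ℕ, (∃ α : MulAut (FreeGroup ((Fin g ⊕ Fin h) ⊕ (Fin m ⊕ Fin n))),
      FreeGroup.lift (extTup m n fun x => π (FreeGroup.of x)) =
        (FreeGroup.lift (final_std g h m n)).comp α.toMonoidHom) ↔
      NE (extTup m n (tupPQ (fun a => (π (β (FreeGroup.of (Sum.inl a)))).2) q))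
        (stdAB (Fin g ⊕ Fin m) (Fin h ⊕ Fin n)) := by
    intro m n
    rw [final_NE_iff]
    constructor
    · intro h1
      exact ((extTup_congr m n hs).symm.trans h1.symm).trans (final_std_NE g h m n).symm
    · intro h1
      exact ((final_std_NE g h m n).symm.trans h1.symm).trans (extTup_congr m n hs).symm
  constructor
  · rintro ⟨m, n, hα⟩
    exact stablyTrivial_of_std _ q ((extTup_NE m n _ q).symm.trans ((key m n).1 hα))
  · intro hst
    obtain ⟨m, n, h1⟩ := std_of_stablyTrivial _ q hgen hst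
    exact ⟨m, n, (key m n).2 h1⟩

end Pool.Agent.MPb5ead8
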