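import Pool.Agent.Lib.MP_b5ead8_al_AC.Final

/-!
# MP_b5ead8_al: the stable question and the stable Andrews-Curtis conjecture
-/

set_option autoImplicit false

namespace Pool.Agent.MPb5ead8

open FreeGroup Function

/-- The homomorphism `π : F_{g+h} → F_g × F_h`, extended by `m` generators which are mapped to new
basis elements of the first factor and `n` generators which are mapped to new basis elements of
the second factor, is the standard map composed with an automorphism, for some `m`, `n`. -/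
def StablyStandard {g h : ℕ} (π : FreeGroup (Fin g ⊕ Fin h) →*
    FreeGroup (Fin g) × FreeGroup (Fin h)) : Prop :=
  ∃ (m n : ℕ) (α : MulAut (FreeGroup ((Fin g ⊕ Fin h) ⊕ (Fin m ⊕ Fin n)))),
    FreeGroup.lift (Sum.elim
      (fun x => ((FreeGroup.map Sum.inl (π (FreeGroup.of x)).1,
        FreeGroup.map Sum.inl (π (FreeGroup.of x)).2) :
          FreeGroup (Fin g ⊕ Fin m) × FreeGroup (Fin h ⊕ Fin n)))
      (Sum.elim (fun i => (FreeGroup.of (Sum.inr i), 1))
        (fun j => (1, FreeGroup.of (Sum.inr j))))) =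
    (FreeGroup.lift (Sum.elim
      (Sum.elim (fun a => ((FreeGroup.of (Sum.inl a), 1) :
          FreeGroup (Fin g ⊕ Fin m) × FreeGroup (Fin h ⊕ Fin n)))
        (fun b => (1, FreeGroup.of (Sum.inl b))))
      (Sum.elim (fun i => (FreeGroup.of (Sum.inr i), 1))
        (fun j => (1, FreeGroup.of (Sum.inr j)))))).comp α.toMonoidHom

/-- A surjective homomorphism has a basis in which it is in normal form. -/
theorem exists_normal_form {g h : ℕ} (π : FreeGroup (Fin g ⊕ Fin h) →*
      FreeGroup (Fin g) × FreeGroup (Fin h)) (hπ : Surjective π) :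
    ∃ (β : MulAut (FreeGroup (Fin g ⊕ Fin h))) (q : Fin h → FreeGroup (Fin h)),
      (∀ a : Fin g, (π (β (FreeGroup.of (Sum.inl a)))).1 = FreeGroup.of a) ∧
      ∀ b : Fin h, π (β (FreeGroup.of (Sum.inr b))) = (1, q b) := by
  obtain ⟨ρ, hρ, p, q, hNE⟩ := shape _ (closure_of_surjective π hπ)
  have hc := hNE.card
  rw [Nat.card_sum, Nat.card_sum, Nat.card_fin, Nat.card_fin] at hc
  have hc' : Nat.card ρ = Nat.card (Fin h) := by
    rw [Nat.card_fin]
    omega
  obtain ⟨e⟩ : Nonempty (ρ ≃ Fin h) := Finite.card_eq.1 hc'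
  have h2 := hNE.trans (NE.reindex _ ((Equiv.refl (Fin g)).sumCongr e.symm))
  obtain ⟨α, hα⟩ := h2
  refine ⟨α, q ∘ e.symm, fun a => ?_, fun b => ?_⟩
  · have h3 := hα (Sum.inl a)
    have h1 : FreeGroup.lift (fun x => π (FreeGroup.of x)) = π := by
      ext x <;> simp
    rw [h1] at h3
    rw [h3]
    rfl
  · have h3 := hα (Sum.inr b)
    have h1 : FreeGroup.lift (fun x => π (FreeGroup.of x)) = π := by
      ext x <;> simp
    rw [h1] at h3
    rw [h3]
    rfl

/-- The second components of a surjective homomorphism in normal form are the relators of a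
presentation of the trivial group. -/
theorem normalClosure_of_surjective {g h : ℕ} (π : FreeGroup (Fin g ⊕ Fin h) →*
      FreeGroup (Fin g) × FreeGroup (Fin h)) (hπ : Surjective π)
    (β : MulAut (FreeGroup (Fin g ⊕ Fin h))) (q : Fin h → FreeGroup (Fin h))
    (hp : ∀ a : Fin g, (π (β (FreeGroup.of (Sum.inl a)))).1 = FreeGroup.of a)
    (hq : ∀ b : Fin h, π (β (FreeGroup.of (Sum.inr b))) = (1, q b)) :
    Subgroup.normalClosure (Set.range q) = ⊤ := by
  let K : Subgroup (FreeGroup (Fin h)) := Subgroup.normalClosure (Set.range q)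
  let ψ : FreeGroup (Fin g) →* FreeGroup (Fin h) ⧸ K :=
    FreeGroup.lift fun a => QuotientGroup.mk' K (π (β (FreeGroup.of (Sum.inl a)))).2
  have key : (((QuotientGroup.mk' K).comp (MonoidHom.snd _ _)).comp (π.comp β.toMonoidHom)) =
      (ψ.comp (MonoidHom.fst _ _)).comp (π.comp β.toMonoidHom) := by
    ext x
    rcases x with a | b
    · change QuotientGroup.mk' K (π (β (FreeGroup.of (Sum.inl a)))).2 =
        ψ (π (β (FreeGroup.of (Sum.inl a)))).1
      rw [hp]
      simp [ψ]
    · change QuotientGroup.mk' K (π (β (FreeGroup.of (Sum.inr b)))).2 =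
        ψ (π (β (FreeGroup.of (Sum.inr b)))).1
      rw [hq]
      simp only [_root_.map_one]
      exact (QuotientGroup.eq_one_iff _).2 (Subgroup.subset_normalClosure ⟨b, rfl⟩)
  rw [eq_top_iff]
  intro u _
  obtain ⟨x, hx⟩ := hπ (1, u)
  have h1 := DFunLike.congr_fun key (β.symm x)
  have h2 : π.comp β.toMonoidHom (β.symm x) = (1, u) := by
    change π (β (β.symm x)) = _
    rw [MulEquiv.apply_symm_apply, hx]
  rw [MonoidHom.comp_apply, MonoidHom.comp_apply (ψ.comp _), h2] at h1
  change QuotientGroup.mk' K u = ψ 1 at h1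
  rw [_root_.map_one] at h1
  exact (QuotientGroup.eq_one_iff _).1 h1

/-- Every presentation of the trivial group with as many generators as relators occurs. -/
theorem exists_of_normalClosure {h : ℕ} (q : Fin h → FreeGroup (Fin h))
    (hq : Subgroup.normalClosure (Set.range q) = ⊤) :
    ∃ π : FreeGroup (Fin h ⊕ Fin h) →* FreeGroup (Fin h) × FreeGroup (Fin h), Surjective π ∧
      (∀ a : Fin h, (π (FreeGroup.of (Sum.inl a))).1 = FreeGroup.of a) ∧
      ∀ b : Fin h, π (FreeGroup.of (Sum.inr b)) = (1, q b) := by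
  let π : FreeGroup (Fin h ⊕ Fin h) →* FreeGroup (Fin h) × FreeGroup (Fin h) :=
    FreeGroup.lift (Sum.elim (fun a => (FreeGroup.of a, FreeGroup.of a)) (fun b => (1, q b)))
  have hdiag : ∀ w : FreeGroup (Fin h), (w, w) ∈ π.range := by
    intro w
    refine ⟨FreeGroup.map Sum.inl w, ?_⟩
    have h1 : π.comp (FreeGroup.map Sum.inl) = (MonoidHom.id _).prod (MonoidHom.id _) := by
      ext a <;> simp [π]
    exact DFunLike.congr_fun h1 w
  have h2 : ∀ u : FreeGroup (Fin h), (1, u) ∈ π.range := by
    have h3 : Subgroup.normalClosure (Set.range q) ≤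
        π.range.comap (MonoidHom.inr (FreeGroup (Fin h)) (FreeGroup (Fin h))) := by
      have hn : (π.range.comap (MonoidHom.inr (FreeGroup (Fin h)) (FreeGroup (Fin h)))).Normal := by
        constructor
        intro n hn g
        have h4 := mul_mem (mul_mem (hdiag g) hn) (inv_mem (hdiag g))
        simpa using h4
      refine Subgroup.normalClosure_le_normal ?_
      rintro _ ⟨b, rfl⟩
      exact ⟨FreeGroup.of (Sum.inr b), by simp [π]⟩
    intro u
    have h4 : u ∈ Subgroup.normalClosure (Set.range q) := by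
      rw [hq]
      exact Subgroup.mem_top u
    exact h3 h4
  refine ⟨π, ?_, fun a => by simp [π], fun b => by simp [π]⟩
  rintro ⟨x, y⟩
  have h3 := mul_mem (hdiag x) (h2 (x⁻¹ * y))
  have h4 : ((x, x) * (1, x⁻¹ * y) : FreeGroup (Fin h) × FreeGroup (Fin h)) = (x, y) := by
    simp
  rw [h4] at h3
  exact h3

/-- The final statement. -/
theorem final_all :
    ((∀ (g : ℕ) (π : FreeGroup (Fin g ⊕ Fin g) →* FreeGroup (Fin g) × FreeGroup (Fin g)),
        Surjective π → StablyStandard π) ↔
      ∀ (h : ℕ) (q : Fin h → FreeGroup (Fin h)), Subgroup.normalClosure (Set.range q) = ⊤ →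
        StablyTrivial q) ∧
    ∀ (g h : ℕ) (π : FreeGroup (Fin g ⊕ Fin h) →* FreeGroup (Fin g) × FreeGroup (Fin h)),
      Surjective π → ∀ (β : MulAut (FreeGroup (Fin g ⊕ Fin h))) (q : Fin h → FreeGroup (Fin h)),
      (∀ a : Fin g, (π (β (FreeGroup.of (Sum.inl a)))).1 = FreeGroup.of a) →
      (∀ b : Fin h, π (β (FreeGroup.of (Sum.inr b))) = (1, q b)) →
      (StablyStandard π ↔ StablyTrivial q) := by
  refine ⟨⟨fun H h q hq => ?_, fun H g π hπ => ?_⟩, fun g h π hπ β q hp hq => ?_⟩
  · obtain ⟨π, h1, h2, h3⟩ := exists_of_normalClosure q hq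
    exact (final_AC h h π h1 1 q h2 h3).1 (H h π h1)
  · obtain ⟨β, q, h1, h2⟩ := exists_normal_form π hπ
    exact (final_AC g g π hπ β q h1 h2).2 (H g q (normalClosure_of_surjective π hπ β q h1 h2))
  · exact final_AC g h π hπ β q hp hq

end Pool.Agent.MPb5ead8
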