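import Pool.Agent.Lib.MP_b5ead8_al_AC.ENBasic
import Pool.Agent.Lib.MP_b5ead8_al.NLet

/-!
# MP_b5ead8_al: Andrews-Curtis moves realised by Nielsen moves
-/

set_option autoImplicit false

namespace Pool.Agent.MPb5ead8

open FreeGroup Function

theorem kill_update {A B : Type} [DecidableEq A] [DecidableEq B] (P : A → FreeGroup B)
    (Q : B → FreeGroup B) (b : B) (x : FreeGroup B) :
    update (tupPQ P Q) (Sum.inr b) (1, x) = tupPQ P (update Q b x) := by
  funext k
  rcases k with a | c
  · rw [update_of_ne (by simp)]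
    rfl
  · rcases eq_or_ne c b with h | h
    · subst h
      rw [update_self]
      change _ = (1, update Q c x c)
      rw [update_self]
    · rw [update_of_ne (by simpa using h)]
      change (1, Q c) = (1, update Q b x c)
      rw [update_of_ne h]

theorem kill_lift {A B : Type} (P : A → FreeGroup B) (u : FreeGroup A) :
    FreeGroup.lift (fun a => (FreeGroup.of a, P a)) u = (u, FreeGroup.lift P u) := by
  have h1 : (MonoidHom.fst (FreeGroup A) (FreeGroup B)).comp
      (FreeGroup.lift (fun a => (FreeGroup.of a, P a))) = MonoidHom.id _ := by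
    ext a
    simp
  have h2 : (MonoidHom.snd (FreeGroup A) (FreeGroup B)).comp
      (FreeGroup.lift (fun a => (FreeGroup.of a, P a))) = FreeGroup.lift P := by
    ext a
    simp
  exact Prod.ext (DFunLike.congr_fun h1 u) (DFunLike.congr_fun h2 u)

theorem kill_step {A B : Type} [DecidableEq A] [DecidableEq B] (P : A → FreeGroup B)
    (hP : Subgroup.closure (Set.range P) = ⊤) {Q Q' : B → FreeGroup B} (h : ACStep Q Q') :
    NE (tupPQ P Q) (tupPQ P Q') := by
  cases h with
  | inv b =>
    refine (NE.inv (tupPQ P Q) (Sum.inr b)).trans (NE.of_eq ?_)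
    rw [← kill_update]
    change update (tupPQ P Q) (Sum.inr b) ((1, Q b) : FreeGroup A × FreeGroup B)⁻¹ = _
    rw [Prod.inv_mk, inv_one]
  | mul i j hij =>
    refine (NE.mul_right (tupPQ P Q) (i := Sum.inr i) (j := Sum.inr j)
      (by simpa using hij.symm)).trans (NE.of_eq ?_)
    rw [← kill_update]
    change update (tupPQ P Q) (Sum.inr i)
      (((1, Q i) : FreeGroup A × FreeGroup B) * (1, Q j)) = _
    rw [Prod.mk_mul_mk, one_mul]
  | conj b w =>
    have hw : w ∈ (FreeGroup.lift P).range := by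
      rw [FreeGroup.range_lift_eq_closure, hP]
      exact Subgroup.mem_top w
    obtain ⟨u, hu⟩ := hw
    have hz : ((u, w) : FreeGroup A × FreeGroup B) ∈
        Subgroup.closure (tupPQ P Q '' {j | j ≠ Sum.inr b}) := by
      have h1 : FreeGroup.lift (fun a => (FreeGroup.of a, P a)) u = (u, w) := by
        rw [kill_lift, hu]
      rw [← h1]
      have h2 : FreeGroup.lift (fun a => (FreeGroup.of a, P a)) u ∈
          (FreeGroup.lift (fun a => (FreeGroup.of a, P a))).range := ⟨u, rfl⟩
      rw [FreeGroup.range_lift_eq_closure] at h2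
      refine Subgroup.closure_mono ?_ h2
      rintro _ ⟨a, rfl⟩
      exact ⟨Sum.inl a, by simp, rfl⟩
    have h3 := NE.update_mul_left (tupPQ P Q) (Sum.inr b) hz (1, Q b)
    have h4 := NE.update_mul_right (tupPQ P Q) (Sum.inr b) (inv_mem hz)
      (((u, w) : FreeGroup A × FreeGroup B) * (1, Q b))
    have h5 : update (tupPQ P Q) (Sum.inr b) (1, Q b) = tupPQ P Q := by
      rw [kill_update, update_eq_self]
    have h6 : ((u, w) : FreeGroup A × FreeGroup B) * (1, Q b) * (u, w)⁻¹ =
        (1, w * Q b * w⁻¹) := by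
      rw [Prod.inv_mk, Prod.mk_mul_mk, Prod.mk_mul_mk, mul_one, mul_inv_cancel]
    rw [h5] at h3
    rw [h6, kill_update] at h4
    exact h3.trans h4

/-- If `P` generates `F(B)`, then Andrews-Curtis moves of `Q` are Nielsen transformations of the
tuple `(a, P a)`, `(1, Q b)`.
PROOF. Induction on the chain; one step `Q ↦ update Q b x`; the tuple changes to
`update (tupPQ P Q) (inr b) (1, x)`. Inversion: `NE.inv`. Multiplication: `NE.mul_right`.
Conjugation by `w`: there is `u : FreeGroup A` with `lift P u = w` (`hP` and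
`FreeGroup.range_lift_eq_closure`). The element `z = (u, w)` is in the closure of the entries
`inl a` (it is `lift (fun a => (of a, P a)) u`), so `NE.update_mul_left` and
`NE.update_mul_right` for the entry `inr b`, with `z` and `z⁻¹`, give
`update (tupPQ P Q) (inr b) (z * (1, Q b) * z⁻¹)` and `z * (1, Q b) * z⁻¹ = (1, w * Q b * w⁻¹)`. -/
theorem NE.tupPQ_of_AC {A B : Type} [DecidableEq A] [DecidableEq B] (P : A → FreeGroup B)
    (hP : Subgroup.closure (Set.range P) = ⊤) {Q Q' : B → FreeGroup B} (h : AC Q Q') :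
    NE (tupPQ P Q) (tupPQ P Q') := by
  induction h with
  | refl => exact NE.refl _
  | tail _ hs ih => exact ih.trans (kill_step P hP hs)

/-- PROOF. `NE.shear'` with `z b = (1, of b)`, `t a = (of a, P a)`, `w a = (P a)⁻¹`:
`lift z (P a)⁻¹ = (1, (P a)⁻¹)`. -/
theorem NE.tupPQ_kill {A B : Type} (P : A → FreeGroup B) :
    NE (tupPQ P FreeGroup.of) (stdAB A B) := by
  refine (NE.shear' (fun a => (FreeGroup.of a, P a))
    (fun b => ((1 : FreeGroup A), FreeGroup.of b)) (fun a => (P a)⁻¹)).trans (NE.of_eq ?_)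
  have h1 : FreeGroup.lift (fun b => ((1 : FreeGroup A), FreeGroup.of b)) =
      MonoidHom.inr (FreeGroup A) (FreeGroup B) := by
    ext b <;> simp
  funext k
  rcases k with a | b
  · change (FreeGroup.of a, P a) *
      FreeGroup.lift (fun b => ((1 : FreeGroup A), FreeGroup.of b)) (P a)⁻¹ =
        (FreeGroup.of a, 1)
    rw [h1, MonoidHom.inr_apply, Prod.mk_mul_mk, mul_one, mul_inv_cancel]
  · rfl

/-- The tuple `P a * a`, `b⁻¹` is Nielsen equivalent to the basis of `F(A ⊔ B)`.
PROOF. First `NE (Sum.elim (fun a => x a * of (inl a)) (fun b => (of (inr b))⁻¹))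
(Sum.elim (fun a => x a * of (inl a)) (fun b => of (inr b)))` with `x a = map inr (P a)`
(`NE.sum_right`, `NE.signs` of file `NLet.lean`). The inverses of the first entries:
`(x a * of (inl a))⁻¹ = (of (inl a))⁻¹ * (x a)⁻¹` (`NE.signs`, `NE.sum_left`); `NE.shear'` with
`w a = P a` (`lift (fun b => of (inr b)) (P a) = x a`) gives `(of (inl a))⁻¹`; invert again. -/
theorem NE.kill_basis {A B : Type} (P : A → FreeGroup B) :
    NE (Sum.elim (fun a => FreeGroup.map Sum.inr (P a) * FreeGroup.of (Sum.inl a))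
      (fun b => (FreeGroup.of (Sum.inr b))⁻¹) : A ⊕ B → FreeGroup (A ⊕ B)) FreeGroup.of := by
  have hinv : ∀ {ι : Type} (t : ι → FreeGroup (A ⊕ B)), NE t (fun i => (t i)⁻¹) := by
    intro ι t
    have h := NE.signs t (fun _ => false)
    simpa using h
  have h1 : NE (fun b : B => (FreeGroup.of (Sum.inr b) : FreeGroup (A ⊕ B))⁻¹)
      (fun b => FreeGroup.of (Sum.inr b)) := by
    have h := hinv (fun b : B => (FreeGroup.of (Sum.inr b) : FreeGroup (A ⊕ B))⁻¹)
    simpa using h
  have h2 : NE (fun a : A => (FreeGroup.map Sum.inr (P a) * FreeGroup.of (Sum.inl a) :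
      FreeGroup (A ⊕ B)))
      (fun a => (FreeGroup.of (Sum.inl a))⁻¹ * (FreeGroup.map Sum.inr (P a))⁻¹) := by
    have h := hinv (fun a : A => (FreeGroup.map Sum.inr (P a) * FreeGroup.of (Sum.inl a) :
      FreeGroup (A ⊕ B)))
    simpa [mul_inv_rev] using h
  have h3 : NE (fun a : A => (FreeGroup.of (Sum.inl a) : FreeGroup (A ⊕ B))⁻¹)
      (fun a => FreeGroup.of (Sum.inl a)) := by
    have h := hinv (fun a : A => (FreeGroup.of (Sum.inl a) : FreeGroup (A ⊕ B))⁻¹)
    simpa using h
  have h4 : FreeGroup.lift (fun b : B => (FreeGroup.of (Sum.inr b) : FreeGroup (A ⊕ B))) =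
      FreeGroup.map Sum.inr := by
    ext b
    simp
  have h5 := NE.shear' (fun a : A => ((FreeGroup.of (Sum.inl a))⁻¹ *
    (FreeGroup.map Sum.inr (P a))⁻¹ : FreeGroup (A ⊕ B)))
    (fun b : B => (FreeGroup.of (Sum.inr b) : FreeGroup (A ⊕ B))) P
  have h6 : (fun a : A => ((FreeGroup.of (Sum.inl a))⁻¹ * (FreeGroup.map Sum.inr (P a))⁻¹ :
      FreeGroup (A ⊕ B)) *
      FreeGroup.lift (fun b : B => (FreeGroup.of (Sum.inr b) : FreeGroup (A ⊕ B))) (P a)) =
      fun a => (FreeGroup.of (Sum.inl a))⁻¹ := by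
    funext a
    rw [h4, inv_mul_cancel_right]
  rw [h6] at h5
  refine (NE.sum_right _ h1).trans ((NE.sum_left _ h2).trans (h5.trans
    ((NE.sum_left _ h3).trans (NE.of_eq ?_))))
  funext k
  rcases k with a | b <;> rfl

end Pool.Agent.MPb5ead8
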