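import Pool.Agent.Lib.MP_b5ead8_al_AC.ENBasic

/-!
# MP_b5ead8_al: the relators of a tuple change by Andrews-Curtis moves
-/

set_option autoImplicit false

namespace Pool.Agent.MPb5ead8

open FreeGroup Function

/-- PROOF. Induction on the chain; one step. Write `S k = (u k, v k)`, `u`, `v` also for the
images in `FreeGroup (A ⊕ B)`; `rho S k = (v k)⁻¹ * u k`.
Inversion of the entry `i`: the new relator is `v i * (u i)⁻¹`; invert `rho S i`:
`(u i)⁻¹ * v i`, and conjugate by `v i`.
Multiplication `S i * S j`: the new relator is `(v i * v j)⁻¹ * (u i * u j) =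
((v j)⁻¹ * rho S i * v j) * rho S j`: conjugate the entry `i` by `(v j)⁻¹` and multiply it by the
entry `j`. The other relators do not change. -/
theorem AC.rho_of_EN {A B : Type} [DecidableEq A] [DecidableEq B]
    {S S' : A ⊕ B → FreeGroup A × FreeGroup B} (h : EN S S') : AC (rho S) (rho S') := by
  have hupd : ∀ (T : A ⊕ B → FreeGroup A × FreeGroup B) (i : A ⊕ B)
      (x : FreeGroup A × FreeGroup B), rho (update T i x) = update (rho T) i
        ((FreeGroup.map Sum.inr x.2)⁻¹ * FreeGroup.map Sum.inl x.1) := by
    intro T i x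
    funext k
    by_cases hk : k = i
    · subst hk
      simp [rho]
    · simp [rho, update_of_ne hk]
  induction h with
  | refl => exact AC.refl _
  | @tail T T' _ hstep ih =>
    refine ih.trans ?_
    cases hstep with
    | inv i =>
      rw [hupd]
      have h1 : ACStep (rho T) (update (rho T) i (rho T i)⁻¹) := ACStep.inv i
      have h2 := ACStep.conj (r := update (rho T) i (rho T i)⁻¹) i
        (FreeGroup.map Sum.inr (T i).2)
      rw [update_idem, update_self] at h2
      have e : (FreeGroup.map Sum.inr (T i)⁻¹.2)⁻¹ * FreeGroup.map Sum.inl (T i)⁻¹.1 =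
          FreeGroup.map Sum.inr (T i).2 * (rho T i)⁻¹ * (FreeGroup.map Sum.inr (T i).2)⁻¹ := by
        rw [Prod.snd_inv, Prod.fst_inv, _root_.map_inv, _root_.map_inv]
        unfold rho
        group
      rw [e]
      exact (Relation.ReflTransGen.single h1).tail h2
    | mul i j hij =>
      rw [hupd]
      have h1 : ACStep (rho T) (update (rho T) i ((FreeGroup.map Sum.inr (T j).2)⁻¹ * rho T i *
          ((FreeGroup.map Sum.inr (T j).2)⁻¹)⁻¹)) := ACStep.conj i _
      have h2 := ACStep.mul (r := update (rho T) i ((FreeGroup.map Sum.inr (T j).2)⁻¹ * rho T i *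
          ((FreeGroup.map Sum.inr (T j).2)⁻¹)⁻¹)) i j hij
      rw [update_idem, update_self, update_of_ne hij.symm] at h2
      have e : (FreeGroup.map Sum.inr (T i * T j).2)⁻¹ * FreeGroup.map Sum.inl (T i * T j).1 =
          (FreeGroup.map Sum.inr (T j).2)⁻¹ * rho T i *
          ((FreeGroup.map Sum.inr (T j).2)⁻¹)⁻¹ * rho T j := by
        rw [Prod.snd_mul, Prod.fst_mul, _root_.map_mul, _root_.map_mul]
        unfold rho
        group
      rw [e]
      exact (Relation.ReflTransGen.single h1).tail h2

end Pool.Agent.MPb5ead8
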