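import Pool.Agent.Lib.MP_b5ead8_al_AC.ENAut
import Pool.Agent.Lib.MP_b5ead8_al_AC.Rho
import Pool.Agent.Lib.MP_b5ead8_al_AC.Kill

/-!
# MP_b5ead8_al: standard tuples have trivial relators
-/

set_option autoImplicit false

namespace Pool.Agent.MPb5ead8

open FreeGroup Function

/-- PROOF. `EN.of_NE` and `AC.rho_of_EN` give `AC (rho (tupPQ P Q)) (rho (stdAB A B))`. Apply
`AC.map` with the homomorphism `τ` of `FreeGroup (A ⊕ B)`, `of (inl a) ↦ map inr (P a) *
of (inl a)`, `of (inr b) ↦ of (inr b)`; `τ (map inr y) = map inr y`. So `τ ∘ rho (tupPQ P Q)` is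
`inl a ↦ of (inl a)`, `inr b ↦ (map inr (Q b))⁻¹`, and `τ ∘ rho (stdAB A B)` is
`inl a ↦ map inr (P a) * of (inl a)`, `inr b ↦ (of (inr b))⁻¹`, which is equivalent to
`FreeGroup.of` by `NE.kill_basis`, `EN.of_NE`, `EN.toAC`. Finally invert the entries `inr b`
(`EN.signs`). -/
theorem AC.of_std {A B : Type} [Fintype A] [Fintype B] [DecidableEq A] [DecidableEq B]
    (P : A → FreeGroup B) (Q : B → FreeGroup B) (h : NE (tupPQ P Q) (stdAB A B)) :
    AC (Sum.elim (fun a => FreeGroup.of (Sum.inl a)) (fun b => FreeGroup.map Sum.inr (Q b)) :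
      A ⊕ B → FreeGroup (A ⊕ B)) FreeGroup.of := by
  have h1 : AC (rho (tupPQ P Q)) (rho (stdAB A B)) := AC.rho_of_EN (EN.of_NE h)
  obtain ⟨τ, hτ⟩ : ∃ τ : FreeGroup (A ⊕ B) →* FreeGroup (A ⊕ B), τ = FreeGroup.lift
      (Sum.elim (fun a => FreeGroup.map Sum.inr (P a) * FreeGroup.of (Sum.inl a))
        (fun b => FreeGroup.of (Sum.inr b))) := ⟨_, rfl⟩
  have hl : ∀ a, τ (FreeGroup.of (Sum.inl a)) =
      FreeGroup.map Sum.inr (P a) * FreeGroup.of (Sum.inl a) := by
    intro a
    rw [hτ, FreeGroup.lift_apply_of, Sum.elim_inl]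
  have hr : ∀ y : FreeGroup B, τ (FreeGroup.map Sum.inr y) = FreeGroup.map Sum.inr y := by
    intro y
    have : τ.comp (FreeGroup.map Sum.inr) = FreeGroup.map Sum.inr := by
      ext b
      simp [hτ]
    exact DFunLike.congr_fun this y
  have h2 := AC.map τ h1
  have h3 : τ ∘ rho (stdAB A B) =
      Sum.elim (fun a => FreeGroup.map Sum.inr (P a) * FreeGroup.of (Sum.inl a))
      (fun b => (FreeGroup.of (Sum.inr b))⁻¹) := by
    funext k
    rcases k with a | b
    · simp [rho, stdAB, hl]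
    · have := hr (FreeGroup.of b)
      rw [FreeGroup.map.of] at this
      simp [rho, stdAB, this]
  have h4 : AC (τ ∘ rho (stdAB A B)) FreeGroup.of := by
    rw [h3]
    exact (EN.of_NE (NE.kill_basis P)).toAC
  have h5 := (EN.signs (τ ∘ rho (tupPQ P Q)) (fun i => i.isLeft)).toAC.symm
  have h6 : (fun i => if i.isLeft then (τ ∘ rho (tupPQ P Q)) i
      else ((τ ∘ rho (tupPQ P Q)) i)⁻¹) =
      (Sum.elim (fun a => FreeGroup.of (Sum.inl a)) (fun b => FreeGroup.map Sum.inr (Q b)) :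
      A ⊕ B → FreeGroup (A ⊕ B)) := by
    funext k
    rcases k with a | b
    · simp [rho, tupPQ, hl, hr]
    · simp [rho, tupPQ, hr]
  rw [h6] at h5
  exact h5.trans (h2.trans h4)

/-- PROOF. `AC.of_std` with `A = Fin g ⊕ Fin m`, `B = Fin h ⊕ Fin n`. Let `k = (g + m) + n` and
`e : (Fin g ⊕ Fin m) ⊕ (Fin h ⊕ Fin n) ≃ Fin h ⊕ Fin k` the equivalence which sends
`inr (inl b)` to `inl b` and the rest to `Fin k` (`(Fin g ⊕ Fin m) ⊕ Fin n ≃ Fin k` by
`finSumFinEquiv`). `AC.map (map e)` and `AC.reindex e` turn the statement into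
`AC (Sum.elim (fun j => map inl (q j)) (fun i => of (inr i))) of`: check the four kinds of
indices; `map e (map inr (map inl (q j))) = map inl (q j)` (`FreeGroup.map.comp`). -/
theorem stablyTrivial_of_std {g h m n : ℕ} (p : Fin g → FreeGroup (Fin h))
    (q : Fin h → FreeGroup (Fin h))
    (hs : NE (tupPQ (Sum.elim (fun a => FreeGroup.map Sum.inl (p a)) (fun _ => 1) :
        Fin g ⊕ Fin m → FreeGroup (Fin h ⊕ Fin n))
      (Sum.elim (fun b => FreeGroup.map Sum.inl (q b)) (fun j => FreeGroup.of (Sum.inr j))))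
      (stdAB (Fin g ⊕ Fin m) (Fin h ⊕ Fin n))) : StablyTrivial q := by
  have h1 := AC.of_std _ _ hs
  let e1 : (Fin g ⊕ Fin m) ⊕ Fin n ≃ Fin ((g + m) + n) :=
    (Equiv.sumCongr finSumFinEquiv (Equiv.refl _)).trans finSumFinEquiv
  let e : (Fin g ⊕ Fin m) ⊕ (Fin h ⊕ Fin n) ≃ Fin h ⊕ Fin ((g + m) + n) :=
    { toFun := Sum.elim (fun x => Sum.inr (e1 (Sum.inl x)))
        (Sum.elim (fun b => Sum.inl b) (fun j => Sum.inr (e1 (Sum.inr j))))
      invFun := Sum.elim (fun b => Sum.inr (Sum.inl b))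
        (fun i => Sum.elim (fun x => Sum.inl x) (fun j => Sum.inr (Sum.inr j)) (e1.symm i))
      left_inv := by
        rintro (x | (b | j)) <;> simp
      right_inv := by
        rintro (b | i)
        · simp
        · have h0 := e1.apply_symm_apply i
          rcases hi : e1.symm i with x | j
          · rw [hi] at h0
            simp [hi, h0]
          · rw [hi] at h0
            simp [hi, h0] }
  have h2 := AC.reindex e (AC.map (FreeGroup.map e) h1)
  refine ⟨(g + m) + n, ?_⟩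
  have h3 : (⇑(FreeGroup.map e) ∘ FreeGroup.of) ∘ e.symm =
      (FreeGroup.of : Fin h ⊕ Fin ((g + m) + n) → _) := by
    funext y
    simp
  rw [h3] at h2
  convert h2 using 1
  funext y
  obtain ⟨x, rfl⟩ := e.surjective y
  simp only [Function.comp_apply, Equiv.symm_apply_apply]
  rcases x with x | (b | j)
  · change FreeGroup.of (Sum.inr (e1 (Sum.inl x))) = FreeGroup.map e (FreeGroup.of (Sum.inl x))
    rw [FreeGroup.map.of]
    rfl
  · change FreeGroup.map Sum.inl (q b) =
      FreeGroup.map e (FreeGroup.map Sum.inr (FreeGroup.map Sum.inl (q b)))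
    rw [FreeGroup.map.comp, FreeGroup.map.comp]
    rfl
  · change FreeGroup.of (Sum.inr (e1 (Sum.inr j))) =
      FreeGroup.map e (FreeGroup.map Sum.inr (FreeGroup.of (Sum.inr j)))
    rw [FreeGroup.map.of, FreeGroup.map.of]
    rfl

end Pool.Agent.MPb5ead8
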